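import Mathlib

set_option autoImplicit false
open FirstOrder Language Set

namespace Pool.Agent.Results.MP_bbe6b0_lc.NotFO

/-- `P` is isomorphic to the order `c ≤ d ↔ ∃ s, d s = c` of an action of a semilattice with identity -/
def IsDown (P : Type) [PartialOrder P] : Prop :=
  ∃ (S : Type) (_ : CommMonoid S), (∀ s : S, s * s = s) ∧ ∃ (C : Type) (act : C → S → C),
    (∀ c s t, act c (s * t) = act (act c s) t) ∧ (∀ c, act c 1 = c) ∧
      ∃ e : P ≃ C, ∀ x y : P, x ≤ y ↔ ∃ s, act (e y) s = e x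

/-- `P` satisfies the sentence `φ` of the language `{≤}` -/
def Sat (P : Type) [PartialOrder P] (φ : Language.order.Sentence) : Prop :=
  @Sentence.Realize _ P (orderStructure P) φ

section down
variable {P : Type} [PartialOrder P]

def Cl (D : Set P) : Prop := IsLowerSet D ∧ ∀ z, ∃ m, IsGreatest (D ∩ Iic z) m

lemma cl_inter {D E : Set P} (hE : IsLowerSet E) {z a b : P} (ha : IsGreatest (E ∩ Iic z) a)
    (hb : IsGreatest (D ∩ Iic a) b) : IsGreatest (E ∩ D ∩ Iic z) b :=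
  ⟨⟨⟨hE hb.1.2 ha.1.1, hb.1.1⟩, hb.1.2.trans ha.1.2⟩, fun _ h => hb.2 ⟨h.1.2, ha.2 ⟨h.1.1, h.2⟩⟩⟩

lemma cl_univ (z : P) : IsGreatest (univ ∩ Iic z) z := by simpa using isGreatest_Iic

lemma down_of (h : ∀ c d : P, c ≤ d → ∃ D, Cl D ∧ IsGreatest (D ∩ Iic d) c) : IsDown P := by
  let _ : CommMonoid {D : Set P // Cl D} :=
    { mul := fun E D => ⟨E.1 ∩ D.1, E.2.1.inter D.2.1, fun z =>
        ⟨_, cl_inter E.2.1 (E.2.2 z).choose_spec (D.2.2 _).choose_spec⟩⟩
      one := ⟨univ, isLowerSet_univ, fun z => ⟨z, cl_univ z⟩⟩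
      mul_assoc := fun _ _ _ => Subtype.ext (inter_assoc _ _ _)
      one_mul := fun _ => Subtype.ext (univ_inter _)
      mul_one := fun _ => Subtype.ext (inter_univ _)
      mul_comm := fun _ _ => Subtype.ext (inter_comm _ _) }
  refine ⟨{D : Set P // Cl D}, inferInstance, fun _ => Subtype.ext (inter_self _), P,
    fun c D => (D.2.2 c).choose, fun c E D => ?_, fun c => ?_, Equiv.refl P, fun x y => ⟨fun hxy => ?_, ?_⟩⟩
  · exact ((E * D).2.2 c).choose_spec.unique (cl_inter E.2.1 (E.2.2 c).choose_spec (D.2.2 _).choose_spec)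
  · exact ((1 : {D : Set P // Cl D}).2.2 c).choose_spec.unique (cl_univ c)
  · obtain ⟨D, h1, h2⟩ := h x y hxy
    exact ⟨⟨D, h1⟩, (h1.2 y).choose_spec.unique h2⟩
  · rintro ⟨D, hD⟩
    exact le_of_eq_of_le hD.symm (D.2.2 y).choose_spec.1.2

lemma IsDown.fn (h : IsDown P) {c d : P} (hcd : c ≤ d) : ∃ f : P → P, f d = c ∧ (∀ x, f x ≤ x) ∧
    Monotone f ∧ ∀ x y, x ≤ f y → f x = x := by
  obtain ⟨S, _, h1, C, act, h2, h3, e, h4⟩ := h
  obtain ⟨s, hs⟩ := (h4 c d).mp hcd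
  refine ⟨fun x => e.symm (act (e x) s), by simp [hs], fun x => (h4 _ _).mpr ⟨s, by simp⟩,
    fun x y hxy => ?_, fun x y hxy => ?_⟩
  · obtain ⟨t, ht⟩ := (h4 _ _).mp hxy
    exact (h4 _ _).mpr ⟨t, by simp only [Equiv.apply_symm_apply, ← ht, ← h2, mul_comm]⟩
  · obtain ⟨t, ht⟩ := (h4 _ _).mp hxy
    rw [Equiv.symm_apply_eq, ← ht, Equiv.apply_symm_apply, ← h2, ← h2, ← h2, mul_comm t s, ← mul_assoc, h1]

end down

section ef
variable {X : Type}

def sat (r : X → X → Prop) {l : ℕ} (φ : Language.order.BoundedFormula Empty l) (xs : Fin l → X) : Prop :=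
  @BoundedFormula.Realize _ X (@orderStructure X ⟨r⟩) _ _ φ default xs

def qr : ∀ {l : ℕ}, Language.order.BoundedFormula Empty l → ℕ
  | _, .imp f g => max (qr f) (qr g)
  | _, .all f => qr f + 1
  | _, _ => 0

lemma term_var {l : ℕ} (t : Language.order.Term (Empty ⊕ Fin l)) : ∃ i, t = .var (.inr i) := by
  rcases t with (a | i) | ⟨f, -⟩
  · exact a.elim
  · exact ⟨i, rfl⟩
  · exact f.elim

lemma ef (r r' : X → X → Prop) (G : ℕ → ∀ l : ℕ, (Fin l → X) → (Fin l → X) → Prop)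
    (h0 : ∀ d l xs ys, G d l xs ys → ∀ i j, (xs i = xs j ↔ ys i = ys j) ∧ (r (xs i) (xs j) ↔ r' (ys i) (ys j)))
    (h1 : ∀ d l xs ys, G (d + 1) l xs ys → ∀ x, ∃ y, G d (l + 1) (Fin.snoc xs x) (Fin.snoc ys y))
    (h2 : ∀ d l xs ys, G (d + 1) l xs ys → ∀ y, ∃ x, G d (l + 1) (Fin.snoc xs x) (Fin.snoc ys y))
    {l : ℕ} (φ : Language.order.BoundedFormula Empty l) :
    ∀ d xs ys, qr φ ≤ d → G d l xs ys → (sat r φ xs ↔ sat r' φ ys) := by
  induction φ with
  | falsum => exact fun _ _ _ _ _ => Iff.rfl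
  | equal t₁ t₂ =>
    intro d xs ys _ h
    obtain ⟨i, rfl⟩ := term_var t₁
    obtain ⟨j, rfl⟩ := term_var t₂
    exact (h0 _ _ _ _ h i j).1
  | rel R ts =>
    intro d xs ys _ h
    cases R
    obtain ⟨i, hi⟩ := term_var (ts 0)
    obtain ⟨j, hj⟩ := term_var (ts 1)
    have := (h0 _ _ _ _ h i j).2
    simp only [sat, BoundedFormula.Realize, Structure.RelMap, hi, hj]
    exact this
  | imp f g ih1 ih2 =>
    intro d xs ys hd h
    exact imp_congr (ih1 d xs ys (le_of_max_le_left hd) h) (ih2 d xs ys (le_of_max_le_right hd) h)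
  | all f ih =>
    intro d xs ys hd h
    obtain ⟨d, rfl⟩ : ∃ d', d = d' + 1 := ⟨d - 1, by simp only [qr] at hd; omega⟩
    have hd' : qr f ≤ d := by simp only [qr] at hd; omega
    constructor
    · intro a y
      obtain ⟨x, hx⟩ := h2 _ _ _ _ h y
      exact (ih d _ _ hd' hx).mp (a x)
    · intro a x
      obtain ⟨y, hy⟩ := h1 _ _ _ _ h x
      exact (ih d _ _ hd' hy).mpr (a y)

end ef

inductive X (n : ℕ) : Type
  | bot : X n
  | g : X n
  | d : X n
  | A : Bool → Fin (n + 1) → X n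
  | R : Bool → Fin (n + 1) → X n

open X

instance (n : ℕ) : Finite (X n) :=
  Finite.of_surjective (fun p : Fin 5 × Bool × Fin (n + 1) =>
    (![bot, g, d, A p.2.1 p.2.2, R p.2.1 p.2.2] : Fin 5 → X n) p.1) fun x => by
      cases x
      exacts [⟨(0, true, 0), rfl⟩, ⟨(1, true, 0), rfl⟩, ⟨(2, true, 0), rfl⟩, ⟨(3, _, _), rfl⟩, ⟨(4, _, _), rfl⟩]

def le {n : ℕ} (k : ℕ) : X n → X n → Prop
  | bot, _ => True
  | g, g => True
  | g, d => True
  | g, R _ _ => True
  | d, d => True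
  | A i j, A i' j' => i = i' ∧ j = j'
  | A i j, R i' j' => (j = j' ∧ i = i') ∨ (j.1 = j'.1 + 1 ∧ (i = i' ↔ j.1 ≠ k))
  | A i j, d => (i = false ∧ (j.1 = 0 ∨ j.1 = n)) ∨ (j.1 = 1 ∧ (i = false ↔ 1 ≠ k))
  | R i j, R i' j' => i = i' ∧ j = j'
  | R i j, d => i = false ∧ j.1 = 0
  | _, _ => False

@[reducible] def po (n k : ℕ) : PartialOrder (X n) where
  le := le k
  le_refl x := by cases x <;> simp [le]
  le_trans x y z := by cases x <;> cases y <;> cases z <;> simp only [le] <;> grind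
  le_antisymm x y := by cases x <;> cases y <;> simp only [le] <;> grind

lemma not_down (n : ℕ) (hn : 2 ≤ n) : ¬@IsDown (X n) (po n 0) := by
  let _ := po n 0
  intro h
  obtain ⟨f, f1, f2, f3, f4⟩ := h.fn (c := R false 0) (d := d) ⟨rfl, rfl⟩
  have hg : f g = g := f4 g d (f1 ▸ trivial)
  have : ∀ j (hj : j < n + 1), f (R false ⟨j, hj⟩) = R false ⟨j, hj⟩ := by
    intro j
    induction j with
    | zero => exact fun _ => f4 _ d (f1 ▸ le_rfl)
    | succ j ih =>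
      intro hj
      have a1 : f (A false ⟨j + 1, hj⟩) = A false ⟨j + 1, hj⟩ :=
        f4 _ (R false ⟨j, by omega⟩) (by rw [ih]; exact Or.inr ⟨rfl, by simp⟩)
      have a2 : le 0 g (f (R false ⟨j + 1, hj⟩)) := hg ▸ f3 (show le 0 g (R false ⟨j + 1, hj⟩) from trivial)
      have a3 : le 0 (A false ⟨j + 1, hj⟩) (f (R false ⟨j + 1, hj⟩)) :=
        a1 ▸ f3 (show le 0 (A false ⟨j + 1, hj⟩) (R false ⟨j + 1, hj⟩) from Or.inl ⟨rfl, rfl⟩)
      have a4 : le 0 _ _ := f2 (R false ⟨j + 1, hj⟩)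
      generalize f (R false ⟨j + 1, hj⟩) = z at *
      cases z <;> simp_all [le]
  have a1 : f (A false ⟨n, by omega⟩) = A false ⟨n, by omega⟩ :=
    f4 _ (R false ⟨n, by omega⟩) (by rw [this]; exact Or.inl ⟨rfl, rfl⟩)
  have a2 : le 0 (f (A false ⟨n, by omega⟩)) (f d) := f3 (Or.inl ⟨rfl, Or.inr rfl⟩)
  rw [a1, f1] at a2
  simp only [le, Fin.ext_iff, Fin.val_zero] at a2
  omega

def D0 {n : ℕ} (k : ℕ) : X n → Prop
  | d => False
  | A i j => i = false ↔ j.1 < k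
  | R i j => i = false ↔ j.1 < k
  | _ => True

lemma is_down (n k : ℕ) (hk : 2 ≤ k) (hn : k ≤ n) : @IsDown (X n) (po n k) := by
  let _ := po n k
  have atom : ∀ x : X n, (∀ y, le k y x → y = bot ∨ y = x) → ∀ y, x ≤ y →
      ∃ D, Cl D ∧ IsGreatest (D ∩ Iic y) x := by
    intro x hx y hxy
    have : ∀ y, x ≤ y → IsGreatest ({bot, x} ∩ Iic y) x := fun y hxy =>
      ⟨⟨Or.inr rfl, hxy⟩, by rintro _ ⟨rfl | rfl, -⟩; exacts [trivial, le_rfl]⟩
    refine ⟨{bot, x}, ⟨?_, fun z => ?_⟩, this y hxy⟩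
    · rintro a b hb (rfl | rfl)
      · cases b <;> first | exact Or.inl rfl | exact hb.elim
      · exact hx b hb
    · by_cases h : x ≤ z
      · exact ⟨x, this z h⟩
      · exact ⟨bot, ⟨Or.inl rfl, trivial⟩, by rintro _ ⟨rfl | rfl, h'⟩; exacts [trivial, absurd h' h]⟩
  have top : ∀ x : X n, ∃ D, Cl D ∧ IsGreatest (D ∩ Iic x) x := fun x =>
    ⟨univ, ⟨isLowerSet_univ, fun z => ⟨z, cl_univ z⟩⟩, cl_univ x⟩
  have gr : ∀ z m : X n, D0 k m → le k m z → (∀ y, D0 k y → le k y z → le k y m) →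
      IsGreatest ({x | D0 k x} ∩ Iic z) m := fun z m a b c => ⟨⟨a, b⟩, fun y h => c y h.1 h.2⟩
  have gd : IsGreatest ({x | D0 k x} ∩ Iic d) (R false (0 : Fin (n + 1))) :=
    gr _ _ (by simp [D0]; omega) ⟨rfl, rfl⟩ fun y => by
      cases y <;> simp only [le, D0, Fin.ext_iff, Fin.val_zero] <;> grind
  refine down_of fun x y hxy => ?_
  cases x with
  | bot => exact atom _ (fun y => by cases y <;> simp [le]) y hxy
  | g => exact atom _ (fun y => by cases y <;> simp [le]) y hxy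
  | A i j => exact atom _ (fun y => by cases y <;> simp [le]) y hxy
  | d => cases y <;> first | exact top _ | exact hxy.elim
  | R i j =>
    cases y with
    | R i' j' => obtain ⟨rfl, rfl⟩ := hxy; exact top _
    | d =>
      obtain ⟨rfl, h⟩ := hxy
      obtain rfl : j = 0 := Fin.ext h
      refine ⟨{x | D0 k x}, ⟨fun a b (hb : le k b a) (ha : D0 k a) => show D0 k b from ?_, fun z => ?_⟩, gd⟩
      · cases a <;> cases b <;> simp only [le, D0] at * <;> grind
      · by_cases hz : D0 k z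
        · exact ⟨z, gr _ _ hz (le_refl z) fun _ _ h => h⟩
        · cases z with
          | d => exact ⟨_, gd⟩
          | A i j => exact ⟨bot, gr _ _ trivial trivial fun y => by cases y <;> simp only [le, D0] at * <;> grind⟩
          | R i j => exact ⟨g, gr _ _ trivial trivial fun y => by cases y <;> simp only [le, D0] at * <;> grind⟩
          | _ => exact absurd trivial hz
    | _ => exact hxy.elim

def pos {n : ℕ} : X n → ℕ
  | A _ j => j
  | R _ j => j
  | _ => 0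

def sw {n : ℕ} (k k' : ℕ) : X n → X n
  | A i j => A (if k ≤ j.1 ∧ j.1 < k' then !i else i) j
  | R i j => R (if k ≤ j.1 ∧ j.1 < k' then !i else i) j
  | x => x

lemma sw_sw {n : ℕ} (k k' : ℕ) (x : X n) : sw k k' (sw k k' x) = x := by
  cases x <;> simp only [sw] <;> split_ifs <;> simp

lemma pos_sw {n : ℕ} (k k' : ℕ) (x : X n) : pos (sw k k' x) = pos x := by cases x <;> rfl

lemma sw_fix {n : ℕ} (k k' : ℕ) (x : X n) (h : pos x < k ∨ k' ≤ pos x) : sw k k' x = x := by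
  cases x <;> simp only [sw, pos] at * <;> rw [if_neg (by omega)]

lemma le_sw {n k k' : ℕ} (h1 : 2 ≤ k) (h2 : k < k') (h3 : k' ≤ n) (x y : X n) :
    le k' x y ↔ le k (sw k k' x) (sw k k' y) := by
  rcases x with _ | _ | _ | ⟨_ | _, _⟩ | ⟨_ | _, _⟩ <;> rcases y with _ | _ | _ | ⟨_ | _, _⟩ | ⟨_ | _, _⟩ <;>
    simp only [sw, le] <;> grind

lemma le_far {n k : ℕ} (h1 : 2 ≤ k) (x y : X n) (h : pos x ≠ k) : le 0 x y ↔ le k x y := by
  cases x <;> cases y <;> simp only [pos, le] at * <;> grind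

def G (n k0 : ℕ) (e l : ℕ) (xs ys : Fin l → X n) : Prop :=
  ∃ k, 2 ≤ k ∧ k + 3 ^ e ≤ n ∧ (∀ i, pos (xs i) + 3 ^ e ≤ k ∨ k + 3 ^ e ≤ pos (xs i)) ∧
    ∃ σ : X n ≃ X n, (∀ x y, le k x y ↔ le k0 (σ x) (σ y)) ∧ ∀ i, ys i = σ (xs i)

lemma G_step {n k0 e l : ℕ} {xs ys : Fin l → X n} (h : G n k0 (e + 1) l xs ys) :
    ∃ F : ℕ → X n ≃ X n, (∀ p x, ∃ y, F p y = x ∧ pos y = pos ((F 0).symm x)) ∧
      ∀ x, G n k0 e (l + 1) (Fin.snoc xs x) (Fin.snoc ys (F (pos x) x)) := by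
  obtain ⟨k, h1, h2, h3, σ, h4, h5⟩ := h
  rw [pow_succ] at h2 h3
  have e0 : 0 < 3 ^ e := by positivity
  let τ : X n ≃ X n := Function.Involutive.toPerm _ (sw_sw k (k + 2 * 3 ^ e))
  have hτ : ∀ x, pos (τ.symm x) = pos x := pos_sw _ _
  refine ⟨fun p => if p + 3 ^ e ≤ k ∨ k + 3 ^ e ≤ p then σ else τ.trans σ, fun p x => ⟨_,
    Equiv.apply_symm_apply _ _, ?_⟩, fun x => ?_⟩
  · beta_reduce
    split_ifs <;> simp [hτ]
  · beta_reduce
    split_ifs with h
    · refine ⟨k, h1, by omega, fun i => ?_, σ, h4, fun i => ?_⟩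
      · refine Fin.lastCases (by simpa using h) (fun i => ?_) i
        have := h3 i
        simp only [Fin.snoc_castSucc]; omega
      · exact Fin.lastCases (by simp) (fun i => by simp [h5]) i
    · refine ⟨k + 2 * 3 ^ e, by omega, by omega, fun i => ?_, τ.trans σ,
        fun x y => (le_sw h1 (by omega) (by omega) x y).trans (h4 _ _), fun i => ?_⟩
      · refine Fin.lastCases (by simp only [Fin.snoc_last]; omega) (fun i => ?_) i
        have := h3 i
        simp only [Fin.snoc_castSucc]; omega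
      · refine Fin.lastCases (by simp) (fun i => ?_) i
        have := h3 i
        simp only [Fin.snoc_castSucc, h5, Equiv.trans_apply]
        exact congrArg σ (sw_fix _ _ _ (by omega)).symm

theorem result : ¬∃ φ : Language.order.Sentence,
    ∀ (P : Type) [PartialOrder P] [Finite P], Sat P φ ↔ IsDown P := by
  rintro ⟨φ, h⟩
  have key := ef (le 0) (le 2) (G (2 + 3 ^ qr φ) 2) (fun e l xs ys hG i j => by
      obtain ⟨k, h1, -, h3, σ, h4, h5⟩ := hG
      have e0 : 0 < 3 ^ e := by positivity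
      have := h3 i
      rw [h5, h5, ← h4]
      exact ⟨σ.injective.eq_iff.symm, le_far h1 _ _ (by omega)⟩)
    (fun e l xs ys hG x => ⟨_, (G_step hG).choose_spec.2 x⟩)
    (fun e l xs ys hG y => by
      obtain ⟨F, h1, h2⟩ := G_step hG
      obtain ⟨x, a1, a2⟩ := h1 (pos ((F 0).symm y)) y
      exact ⟨x, by have := h2 x; rwa [a2, a1] at this⟩)
    φ (qr φ) default default le_rfl ⟨2, le_rfl, le_rfl, finZeroElim, Equiv.refl _, fun _ _ => Iff.rfl, finZeroElim⟩
  exact not_down _ (Nat.le_add_right _ _) ((@h _ (po _ 0) _).mp (key.mpr ((@h _ (po _ 2) _).mpr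
    (is_down _ 2 le_rfl (Nat.le_add_right _ _)))))

end Pool.Agent.Results.MP_bbe6b0_lc.NotFO
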